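import Mathlib
import Pool.Agent.H686R2.Sil.Main
import Pool.Agent.Helper185.DelNoP
import Pool.Agent.Helper292.ForceCH

/-!
# MP_e258b5_gt: the `γ_p`-property for all ultrafilters `p` does not imply the `γ`-property

(1) Some forcing notion preserves `ω₁` and forces the continuum hypothesis.
(2) If the continuum hypothesis holds, then some forcing notion (the countable support product of
many copies of Silver forcing) preserves `ω₁`, forces `DomSmall` (the dominating number is `ℵ₁`)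
and forces `NoPPoint` (there are no P-points).
(3) In ZFC, `DomSmall` and `NoPPoint` together give an infinite set of reals which has the
`γ_p`-property for every nonprincipal ultrafilter `p` but not the `γ`-property.

The sentences forced in (1), (2) are, word for word, the hypotheses of (2), (3).
-/

set_option autoImplicit false

namespace Pool.Agent.Results.MP_e258b5_gt.ConsistentCounterexample

open Cardinal Pool.Agent.H686R2.Sil

/-- the relation `R` is a function -/
def IsFunction {X Y : Type} (R : X → Y → Prop) : Prop :=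
  (∀ x, ∃ y, R x y) ∧ ∀ x y y', R x y ∧ R x y' → y = y'

/-- The continuum hypothesis: some family of subsets of `ℕ` indexed by `ω₁` contains every subset
of `ℕ`. -/
def CH : Prop := ∃ E : Om → ℕ → Prop, ∀ x : ℕ → Prop, ∃ a : Om, ∀ n : ℕ, (x n ↔ E a n)

/-- Some family of functions `ℕ → ℕ` indexed by `ω₁` dominates every function. -/
def DomSmall : Prop :=
  ∃ D : Om → ℕ → ℕ → Prop, (∀ a : Om, IsFunction (D a)) ∧
    ∀ f : ℕ → ℕ → Prop, IsFunction f → ∃ a : Om, ∀ n : ℕ, ∃ m m' : ℕ,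
      (f n m ∧ D a n m') ∧ m ≤ m'

/-- The set `W` of subsets of `ℕ` is a P-point: for every set the set or its complement belongs to
`W`, `W` is closed under intersections and supersets, the members of `W` are infinite, and for
every sequence of members some member is almost contained in every term of the sequence. -/
def IsPPointSet (W : Set (ℕ → Prop)) : Prop :=
  (∀ x y : ℕ → Prop, (∀ n, (y n ↔ ¬ x n)) → (x ∈ W ∨ y ∈ W)) ∧
  (∀ x y z : ℕ → Prop, ((x ∈ W ∧ y ∈ W) ∧ ∀ n, (z n ↔ (x n ∧ y n))) → z ∈ W) ∧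
  (∀ x y : ℕ → Prop, (x ∈ W ∧ ∀ n, (x n → y n)) → y ∈ W) ∧
  (∀ x : ℕ → Prop, x ∈ W → ∀ N : ℕ, ∃ n : ℕ, N ≤ n ∧ x n) ∧
  ∀ x : ℕ → ℕ → Prop, (∀ j, x j ∈ W) →
    ∃ y : ℕ → Prop, y ∈ W ∧ ∀ j : ℕ, ∃ N : ℕ, ∀ n : ℕ, N ≤ n → (y n → x j n)

/-- There are no P-points. -/
def NoPPoint : Prop := ¬ ∃ W : Set (ℕ → Prop), IsPPointSet W

theorem noPPoint (h : NoPPoint) (p : Ultrafilter ℕ) : ¬ Pool.Agent.Helper185.Del.IsPPoint p := by
  rintro ⟨hp, hpp⟩
  apply h
  refine ⟨{x | {n | x n} ∈ p}, ?_, ?_, ?_, ?_, ?_⟩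
  · intro x y hxy
    rcases p.mem_or_compl_mem {n | x n} with h1 | h1
    · exact Or.inl h1
    · right
      have : {n | y n} = {n | x n}ᶜ := by
        ext n
        exact hxy n
      exact (this ▸ h1 : {n | y n} ∈ p)
  · rintro x y z ⟨⟨hx, hy⟩, hz⟩
    exact Filter.mem_of_superset (Filter.inter_mem hx hy) fun n hn => (hz n).2 hn
  · rintro x y ⟨hx, hy⟩
    exact Filter.mem_of_superset hx hy
  · intro x hx N
    have h1 : {n | N ≤ n} ∈ (p : Filter ℕ) := hp (by
      rw [Filter.mem_cofinite]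
      refine (Set.finite_lt_nat N).subset fun n hn => ?_
      simpa using hn)
    obtain ⟨n, hn⟩ := p.nonempty_of_mem (Filter.inter_mem h1 hx)
    exact ⟨n, hn⟩
  · intro x hx
    obtain ⟨B, hB, hB'⟩ := hpp (fun j => {n | x j n}) hx
    refine ⟨fun n => n ∈ B, hB, fun j => ?_⟩
    obtain ⟨N, hN⟩ := (hB' j).bddAbove
    refine ⟨N + 1, fun n hn hnB => ?_⟩
    by_contra hcon
    have := hN (show n ∈ B \ {n | x j n} from ⟨hnB, hcon⟩)
    omega

theorem domNumber_eq (h : DomSmall) : Pool.Agent.Helper185.Del.domNumber = Cardinal.aleph 1 := by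
  classical
  apply le_antisymm
  · obtain ⟨D, hD, hdom⟩ := h
    choose F hF using fun a => (hD a).1
    have h1 : Pool.Agent.Helper185.Del.domNumber ≤ #(Set.range F) := by
      apply csInf_le'
      refine ⟨Set.range F, rfl, fun f => ?_⟩
      obtain ⟨a, ha⟩ := hdom (fun n m => f n = m) ⟨fun n => ⟨_, rfl⟩,
        fun n m m' h => h.1.symm.trans h.2⟩
      refine ⟨F a, ⟨a, rfl⟩, Filter.Eventually.of_forall fun n => ?_⟩
      obtain ⟨m, m', ⟨h2, h3⟩, h4⟩ := ha n
      rw [h2, (hD a).2 n _ _ ⟨hF a n, h3⟩]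
      exact h4
    refine h1.trans (Cardinal.mk_range_le.trans ?_)
    rw [Cardinal.mk_toType, Cardinal.card_ord]
  · have hne : {κ | ∃ D : Set (ℕ → ℕ), Cardinal.mk D = κ ∧
        ∀ f : ℕ → ℕ, ∃ g ∈ D, ∀ᶠ n in Filter.atTop, f n ≤ g n}.Nonempty :=
      ⟨_, Set.univ, rfl, fun f => ⟨f, Set.mem_univ _, Filter.Eventually.of_forall fun _ => le_rfl⟩⟩
    obtain ⟨D, hD1, hD2⟩ := csInf_mem hne
    by_contra hcon
    rw [not_le] at hcon
    have h1 : D.Countable := by
      rw [← Cardinal.le_aleph0_iff_set_countable, hD1]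
      have h2 : Pool.Agent.Helper185.Del.domNumber < Order.succ ℵ₀ := by
        rw [Cardinal.succ_aleph0]
        exact hcon
      exact Order.lt_succ_iff.1 h2
    have hDne : D.Nonempty := by
      obtain ⟨g, hg, _⟩ := hD2 fun _ => 0
      exact ⟨g, hg⟩
    obtain ⟨e, he⟩ := h1.exists_eq_range hDne
    obtain ⟨g, hg, hg'⟩ := hD2 fun n => (Finset.range (n + 1)).sup (fun k => e k n) + 1
    rw [he] at hg
    obtain ⟨k, rfl⟩ := hg
    obtain ⟨N, hN⟩ := Filter.eventually_atTop.1 hg'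
    have h3 := hN (max N k) (le_max_left _ _)
    have h4 : e k (max N k) ≤ (Finset.range (max N k + 1)).sup (fun k' => e k' (max N k)) :=
      Finset.le_sup (f := fun k' => e k' (max N k))
        (Finset.mem_range.2 (by have := le_max_right N k; omega))
    omega

theorem card_of_ch (h : CH) : #(ℕ → ℕ) ≤ #Om := by
  obtain ⟨E, hE⟩ := h
  have h1 : Function.Surjective E := fun x => by
    obtain ⟨a, ha⟩ := hE x
    exact ⟨a, funext fun n => propext (ha n).symm⟩
  have h2 : #(ℕ → Prop) ≤ #Om := Cardinal.mk_le_of_surjective h1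
  have h3 : #(ℕ → Prop) = 𝔠 := by
    rw [← Cardinal.power_def, Cardinal.mk_nat, Cardinal.mk_Prop, Cardinal.two_power_aleph0]
  have h4 : #(ℕ → ℕ) = 𝔠 := by
    rw [← Cardinal.power_def, Cardinal.mk_nat, Cardinal.aleph0_power_aleph0]
  rw [h4, ← h3]
  exact h2

theorem result :
    (∃ (P : Type) (_ : Preorder P), Nonempty P ∧ ∀ p : P,
      p ∈ OmegaOnePreserved P ∧ p ∈ ForcesCH P) ∧
    (CH → ∃ (P : Type) (_ : Preorder P), Nonempty P ∧ ∀ p : P,
      p ∈ OmegaOnePreserved P ∧ p ∈ ForcesDomSmall P ∧ p ∈ ForcesNoPPoint P) ∧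
    (DomSmall ∧ NoPPoint → ∃ X : Set ℝ, X.Infinite ∧
      (∀ p : Ultrafilter ℕ, Pool.Agent.Helper185.Del.Nonprincipal p →
        Pool.Agent.Helper185.Del.GammaP p X) ∧
      ¬ Pool.Agent.Helper185.Del.GammaProperty X) := by
  refine ⟨?_, ?_, ?_⟩
  · obtain ⟨P, i, h1, h2⟩ := Pool.Agent.Helper292.ForceCH.exists_forcing
    exact ⟨P, i, h1, fun p => ⟨(h2 p).1, (h2 p).2.2⟩⟩
  · intro h
    refine ⟨Cond (Set (ℕ → Bool)), inferInstance, inferInstance, fun p =>
      ⟨omegaOnePreserved p, forcesDomSmall (card_of_ch h) p, forcesNoPPoint ?_ p⟩⟩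
    have h1 : #(ℕ → Bool) = 𝔠 := by
      rw [← Cardinal.power_def, Cardinal.mk_nat, Cardinal.mk_bool, Cardinal.two_power_aleph0]
    rw [Cardinal.mk_set, h1]
    exact Cardinal.cantor _
  · rintro ⟨h1, h2⟩
    exact Pool.Agent.Helper185.Del.exists_real4 (domNumber_eq h1) (noPPoint h2)

end Pool.Agent.Results.MP_e258b5_gt.ConsistentCounterexample
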